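import Pool.Agent.W2helper22.CU.Stmts
import Pool.Agent.W2helper86.KQ.Low

/-!
# Monotone circuits for the `k`-clique problem on host graphs with many `k`-cliques
-/

set_option autoImplicit false

namespace Pool.Agent.W2helper96.CU

open Filter Pool.Agent.H540R2 Pool.Agent.W2helper86.KQ Pool.Agent.W2helper22.CU

/-- the distribution concentrated on one circuit -/
noncomputable def point {N : ℕ} (C : Circuit N) : RandCircuit N where
  Ω := Unit
  fin := inferInstance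
  w := fun _ => 1
  nonneg := fun _ => zero_le_one
  sum_one := by simp
  C := fun _ => C

theorem point_prob {N : ℕ} (C : Circuit N) (P : Circuit N → Prop) (h : P C) :
    (point C).prob P = 1 := by
  classical
  unfold RandCircuit.prob point
  simp [h]

/-- the lower bound for the complete host -/
theorem mono_complete (k : ℕ) (hk : 3 ≤ k) : ∀ᶠ n : ℕ in atTop,
    ∀ C : Circuit (n.choose 2), C.nots = 0 → Decides ⊤ k C → (n : ℝ) ^ ((1 / 2 : ℝ) * k) ≤ C.size := by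
  obtain ⟨α, hα, H⟩ := core_gap k k hk le_rfl 0 (1 / 2) le_rfl (by norm_num) (by norm_num)
  have hsm : ∀ᶠ r : ℕ in atTop, (r : ℝ) ^ (-α) < 1 / 2 := by
    have h1 : Tendsto (fun r : ℕ => (r : ℝ) ^ (-α)) atTop (nhds 0) :=
      (tendsto_rpow_neg_atTop hα).comp tendsto_natCast_atTop_atTop
    exact h1.eventually (gt_mem_nhds (by norm_num))
  filter_upwards [H, hsm] with n hn h2 C hC hD
  by_contra hcon
  push Not at hcon
  obtain ⟨x, -, -, hx⟩ := hn n 0 0 (by omega) (by omega) (point C)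
    (fun _ => by
      change (2 : ℝ) ^ C.nots ≤ _
      rw [hC]
      simp)
    (fun _ => hcon)
  rw [point_prob] at hx
  · linarith
  · have h3 := hD x le_top
    refine ⟨h3.2, fun h4 => ?_⟩
    by_contra h5
    have h6 : C.eval x = true := by
      cases h7 : C.eval x
      · exact absurd h7 h5
      · rfl
    exact h3.1 h6 h4

theorem ev_natpow {s : ℝ} (hs : 0 < s) (M : ℝ) : ∀ᶠ n : ℕ in atTop, M ≤ (n : ℝ) ^ s :=
  ((tendsto_rpow_atTop hs).comp tendsto_natCast_atTop_atTop).eventually (eventually_ge_atTop M)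

theorem p_mono (hT : P_TRANSFER) : P_MONO := by
  intro c₀ hc₀
  -- `c ≤ 1`
  obtain ⟨c, hc, hc1, hcc⟩ : ∃ c : ℝ, 0 < c ∧ c ≤ 1 ∧ c ≤ c₀ :=
    ⟨min c₀ 1, lt_min hc₀ one_pos, min_le_right _ _, min_le_left _ _⟩
  obtain ⟨ε, hε⟩ : ∃ ε : ℝ, ε = c / 256 := ⟨_, rfl⟩
  have hε0 : 0 < ε := by rw [hε]; positivity
  have hε1 : ε ≤ 1 := by rw [hε]; linarith
  obtain ⟨δ, hδ⟩ : ∃ δ : ℝ, δ = ε * c ^ 2 / 264 := ⟨_, rfl⟩
  have hδ0 : 0 < δ := by rw [hδ]; positivity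
  refine ⟨c * δ / 256, by positivity, ?_⟩
  have hlarge : ∀ᶠ K : ℕ in atTop, 8 ≤ δ * K :=
    (tendsto_natCast_atTop_atTop.const_mul_atTop hδ0).eventually (eventually_ge_atTop 8)
  filter_upwards [hlarge, eventually_ge_atTop 1] with K hK hK1
  -- the size of the cliques in the complete graph
  obtain ⟨k, hk⟩ : ∃ k : ℕ, k = ⌊δ * K⌋₊ := ⟨_, rfl⟩
  have hk1 : (k : ℝ) ≤ δ * K := by
    rw [hk]; exact Nat.floor_le (by positivity)
  have hk2 : δ * K < k + 1 := by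
    rw [hk]; exact Nat.lt_floor_add_one _
  have hk8 : 8 ≤ k := by
    rw [hk]; exact Nat.le_floor (by exact_mod_cast hK)
  have hk0 : (0 : ℝ) < k := by
    have : (8 : ℝ) ≤ k := by exact_mod_cast hk8
    linarith
  have hk3 : δ * K ≤ 2 * k := by
    have : (8 : ℝ) ≤ k := by exact_mod_cast hk8
    linarith
  have hkK : 264 * (k : ℝ) ≤ ε * c ^ 2 * K := by
    rw [hδ] at hk1
    have h1 : 264 * (ε * c ^ 2 / 264 * K) = ε * c ^ 2 * K := by ring
    linarith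
  obtain ⟨n₀, hn₀⟩ := eventually_atTop.1 (mono_complete k (by omega))
  have hT' := hT c ε hc hc1 hε0 hε1 K k (by omega) hkK
  filter_upwards [hT', ev_natpow (s := c / 16) (by positivity) ((n₀ : ℝ) + 4),
    ev_natpow (s := c * k / 128) (by positivity) (2 * 2 ^ ((1 / 2 : ℝ) * k)),
    eventually_ge_atTop 1] with N hN hN1 hN2 hN3 H hH C hC hD
  have hNr : (1 : ℝ) ≤ N := by exact_mod_cast hN3
  have hN0 : (0 : ℝ) < N := by linarith
  -- the hypothesis on the number of cliques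
  have hH' : (N : ℝ) ^ (c * K) ≤ cliques H K := by
    refine le_trans ?_ hH
    apply Real.rpow_le_rpow_of_exponent_le hNr
    exact mul_le_mul_of_nonneg_right hcc (Nat.cast_nonneg K)
  obtain ⟨n, hn⟩ : ∃ n : ℕ, n = ⌊(N : ℝ) ^ (c / 16)⌋₊ := ⟨_, rfl⟩
  have hx0 : 0 ≤ (N : ℝ) ^ (c / 16) := by positivity
  have hn1 : (n : ℝ) ≤ (N : ℝ) ^ (c / 16) := by
    rw [hn]; exact Nat.floor_le hx0
  have hn2 : (N : ℝ) ^ (c / 16) < n + 1 := by
    rw [hn]; exact Nat.lt_floor_add_one _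
  have hnn : n₀ ≤ n := by
    have h1 : (n₀ : ℝ) < n + 1 := by linarith
    have h2 : n₀ < n + 1 := by exact_mod_cast h1
    omega
  have hn3 : (3 : ℝ) ≤ n := by
    have h1 : (0 : ℝ) ≤ n₀ := Nat.cast_nonneg _
    linarith
  have hn4 : 2 ≤ n := by
    have : (2 : ℝ) ≤ n := by linarith
    exact_mod_cast this
  obtain ⟨C', hC1, hC2, hC3⟩ := hN H hH' n hn4 hn1 C hD
  have hlow := hn₀ n hnn C' (hC2 hC) hC3
  -- arithmetic
  have hhalf : (N : ℝ) ^ (c / 16) / 2 ≤ n := by linarith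
  have h1 : ((N : ℝ) ^ (c / 16) / 2) ^ ((1 / 2 : ℝ) * k) ≤ (n : ℝ) ^ ((1 / 2 : ℝ) * k) :=
    Real.rpow_le_rpow (by positivity) hhalf (by positivity)
  have h2 : ((N : ℝ) ^ (c / 16) / 2) ^ ((1 / 2 : ℝ) * k) =
      (N : ℝ) ^ (c * k / 32) / 2 ^ ((1 / 2 : ℝ) * k) := by
    rw [Real.div_rpow (by positivity) (by norm_num), ← Real.rpow_mul hN0.le]
    congr 2
    ring
  have h3 : (N : ℝ) ^ (c * k / 32) / 2 ^ ((1 / 2 : ℝ) * k) ≤
      (N : ℝ) ^ (4 * ε * k) * (C.size + 1) := by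
    rw [← h2]
    exact h1.trans (hlow.trans hC1)
  have h4 : (N : ℝ) ^ (c * k / 32) = (N : ℝ) ^ (4 * ε * k) * ((N : ℝ) ^ (c * k / 128) *
      (N : ℝ) ^ (c * k / 128)) := by
    rw [← Real.rpow_add hN0, ← Real.rpow_add hN0]
    congr 1
    rw [hε]
    ring
  have hp : 0 < (N : ℝ) ^ (4 * ε * k) := Real.rpow_pos_of_pos hN0 _
  have hq : 0 < (N : ℝ) ^ (c * k / 128) := Real.rpow_pos_of_pos hN0 _
  have h2p : (0 : ℝ) < 2 ^ ((1 / 2 : ℝ) * k) := Real.rpow_pos_of_pos (by norm_num) _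
  have h2p1 : (1 : ℝ) ≤ 2 ^ ((1 / 2 : ℝ) * k) :=
    Real.one_le_rpow (by norm_num) (by positivity)
  rw [h4, div_le_iff₀ h2p] at h3
  have h5 : (N : ℝ) ^ (c * k / 128) * (N : ℝ) ^ (c * k / 128) ≤
      (C.size + 1) * 2 ^ ((1 / 2 : ℝ) * k) := by
    have h6 : (N : ℝ) ^ (4 * ε * k) * ((N : ℝ) ^ (c * k / 128) * (N : ℝ) ^ (c * k / 128)) ≤
        (N : ℝ) ^ (4 * ε * k) * ((C.size + 1) * 2 ^ ((1 / 2 : ℝ) * k)) := by
      calc _ ≤ _ := h3
        _ = _ := by ring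
    exact le_of_mul_le_mul_left h6 hp
  have h6 : 2 * (N : ℝ) ^ (c * k / 128) ≤ C.size + 1 := by
    have h7 : 2 * 2 ^ ((1 / 2 : ℝ) * k) * (N : ℝ) ^ (c * k / 128) ≤
        (C.size + 1) * 2 ^ ((1 / 2 : ℝ) * k) :=
      (mul_le_mul_of_nonneg_right hN2 hq.le).trans h5
    have h8 : (2 * (N : ℝ) ^ (c * k / 128)) * 2 ^ ((1 / 2 : ℝ) * k) ≤
        (C.size + 1) * 2 ^ ((1 / 2 : ℝ) * k) := by
      calc _ = 2 * 2 ^ ((1 / 2 : ℝ) * k) * (N : ℝ) ^ (c * k / 128) := by ring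
        _ ≤ _ := h7
    exact le_of_mul_le_mul_right h8 h2p
  have h7 : (N : ℝ) ^ (c * δ / 256 * K) ≤ (N : ℝ) ^ (c * k / 128) := by
    apply Real.rpow_le_rpow_of_exponent_le hNr
    have h8 : c * (δ * K) ≤ c * (2 * k) := mul_le_mul_of_nonneg_left hk3 hc.le
    calc c * δ / 256 * K = c * (δ * K) / 256 := by ring
      _ ≤ c * (2 * k) / 256 := by linarith
      _ = c * k / 128 := by ring
  have h8 : (1 : ℝ) ≤ (N : ℝ) ^ (c * k / 128) := by linarith
  linarith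

end Pool.Agent.W2helper96.CU
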